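import Pool.Agent.NA.Stmts

set_option autoImplicit false

open Finset Filter Topology MeasureTheory

noncomputable section

namespace Pool.Agent.NA.H99

open Pool.Agent.NA

theorem lni (h : LncStmt) : LniStmt := by
  intro X _ _ C z κ P hC h0 hm hP hL
  obtain ⟨-, hone, hmon, hcomp, -⟩ := h X C hC
  have key : ∀ n, Lnk C z 0 (κ n) (∏ i ∈ range n, P i) := by
    intro n
    induction n with
    | zero =>
      rw [Finset.prod_range_zero, h0]
      exact hone z 0
    | succ n ih =>
      rw [Finset.prod_range_succ]
      exact hcomp z 0 (κ n) (κ (n + 1)) _ _ ih (hL n)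
  have key2 : ∀ n, Lnk C z 0 (κ n) 2 := fun n => hmon z 0 (κ n) _ _ (hP n) (key n)
  refine ⟨fun k => ?_, fun a m n hmn => ?_⟩
  · have h1 : k < κ (k + 1) := lt_of_lt_of_le (Nat.lt_succ_self k) (hm.id_le (k + 1))
    exact (key2 (k + 1)).2.2.1 k (Nat.zero_le k) h1
  · have hn : n ≤ κ n := hm.id_le n
    set b : ℕ → ℝ := fun k => if k < n then a k else 0 with hb
    have h1 : S z b m = S z a m := by
      unfold S
      refine Finset.sum_congr rfl fun k hk => ?_
      have : k < n := lt_of_lt_of_le (Finset.mem_range.1 hk) hmn
      simp only [hb, if_pos this]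
    have h2 : S z b (κ n) = S z a n := by
      unfold S
      rw [← Finset.sum_subset (Finset.range_subset_range.2 hn)]
      · refine Finset.sum_congr rfl fun k hk => ?_
        have : k < n := Finset.mem_range.1 hk
        simp only [hb, if_pos this]
      · intro k _ hk
        have : ¬ k < n := fun h => hk (Finset.mem_range.2 h)
        simp only [hb, if_neg this, zero_smul]
    have h3 := (key2 n).2.2.2.2 b m (Nat.zero_le m) (hmn.trans hn)
    rw [h1, h2] at h3
    linarith

end Pool.Agent.NA.H99
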